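import Pool.Agent.Helper87.VM.BS.Core
import Pool.Agent.Helper48.VMRT.Core

/-!
If the linear automorphisms of a projective variety act transitively on its irreducible
components, then so does a finite group of linear automorphisms (Borel-Serre).
-/

set_option autoImplicit false

namespace Pool.Agent.Helper87.VM

open MvPolynomial Pool.Agent.Helper48.VMRT

variable {n : ℕ} {ι : Type}

/-- matrices as linear automorphisms -/
noncomputable def glEquiv (n : ℕ) : Matrix.GeneralLinearGroup (Fin n) ℂ ≃*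
    ((Fin n → ℂ) ≃ₗ[ℂ] (Fin n → ℂ)) :=
  Matrix.GeneralLinearGroup.toLin.trans (LinearMap.GeneralLinearGroup.generalLinearEquiv ℂ _)

theorem glEquiv_apply (g : Matrix.GeneralLinearGroup (Fin n) ℂ) (v : Fin n → ℂ) :
    glEquiv n g v = (g : Matrix (Fin n) (Fin n) ℂ).mulVec v := rfl

theorem bs_into [Finite ι] (Z : ι → Set (Fin n → ℂ)) (hZ : IsComponents Z)
    (b : (Fin n → ℂ) ≃ₗ[ℂ] (Fin n → ℂ)) (hb : b '' (⋃ i, Z i) ⊆ ⋃ i, Z i) (i : ι) :
    ∃ j, b '' Z i ⊆ Z j := by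
  obtain ⟨j, hj⟩ := irr_cover (hZ.irred i) (fun j => {x | b x ∈ Z j}) (by
    intro j x hx
    obtain ⟨p, hp, hpx⟩ := (hZ.closed j).sep hx
    refine ⟨compLin b.toLinearMap p, fun y hy => ?_, ?_⟩
    · rw [eval_compLin]
      exact hp _ hy
    · rw [eval_compLin]
      exact hpx) (by
    intro x hx
    obtain ⟨j, hj⟩ := Set.mem_iUnion.1 (hb ⟨x, Set.mem_iUnion.2 ⟨i, hx⟩, rfl⟩)
    exact Set.mem_iUnion.2 ⟨j, hj⟩)
  refine ⟨j, ?_⟩
  rintro _ ⟨x, hx, rfl⟩
  exact hj hx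

theorem bs_perm [Finite ι] (Z : ι → Set (Fin n → ℂ)) (hZ : IsComponents Z)
    (a : (Fin n → ℂ) ≃ₗ[ℂ] (Fin n → ℂ)) (ha : a '' (⋃ i, Z i) = ⋃ i, Z i) :
    ∃ σ : Equiv.Perm ι, ∀ i, a '' Z i = Z (σ i) := by
  classical
  have ha' : a.symm '' (⋃ i, Z i) ⊆ ⋃ i, Z i := by
    rintro _ ⟨x, hx, rfl⟩
    rw [← ha] at hx
    obtain ⟨y, hy, rfl⟩ := hx
    rw [a.symm_apply_apply]
    exact hy
  choose f hf using bs_into Z hZ a ha.le
  choose g hg using bs_into Z hZ a.symm ha'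
  have h1 : ∀ i, g (f i) = i := by
    intro i
    refine (hZ.irredundant i (g (f i)) fun x hx => ?_).symm
    have := hg (f i) ⟨a x, hf i ⟨x, hx, rfl⟩, rfl⟩
    rwa [a.symm_apply_apply] at this
  have h2 : ∀ i, f (g i) = i := by
    intro i
    refine (hZ.irredundant i (f (g i)) fun x hx => ?_).symm
    have := hf (g i) ⟨a.symm x, hg i ⟨x, hx, rfl⟩, rfl⟩
    rwa [a.apply_symm_apply] at this
  refine ⟨⟨f, g, h1, h2⟩, fun i => Set.Subset.antisymm (hf i) fun x hx => ?_⟩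
  have h3 := hg (f i) ⟨x, hx, rfl⟩
  rw [h1] at h3
  exact ⟨a.symm x, h3, a.apply_symm_apply x⟩

/-- the permutations of the components induced by linear automorphisms -/
def bsQ (Z : ι → Set (Fin n → ℂ)) : Subgroup (Equiv.Perm ι) where
  carrier := {σ | ∃ a : (Fin n → ℂ) ≃ₗ[ℂ] (Fin n → ℂ), ∀ i, a '' Z i = Z (σ i)}
  mul_mem' := by
    rintro σ τ ⟨a, ha⟩ ⟨b, hb⟩
    refine ⟨a * b, fun i => ?_⟩
    have : ((a * b : (Fin n → ℂ) ≃ₗ[ℂ] (Fin n → ℂ)) : (Fin n → ℂ) → (Fin n → ℂ)) = a ∘ b := rfl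
    rw [this, Set.image_comp, hb, ha]
    rfl
  one_mem' := ⟨1, fun i => by
    have : ((1 : (Fin n → ℂ) ≃ₗ[ℂ] (Fin n → ℂ)) : (Fin n → ℂ) → (Fin n → ℂ)) = id := rfl
    rw [this, Set.image_id]
    rfl⟩
  inv_mem' := by
    rintro σ ⟨a, ha⟩
    refine ⟨a⁻¹, fun i => ?_⟩
    have h1 : ((a⁻¹ : (Fin n → ℂ) ≃ₗ[ℂ] (Fin n → ℂ)) : (Fin n → ℂ) → (Fin n → ℂ)) = a.symm := rfl
    have h2 := ha (σ⁻¹ i)
    have h3 : σ (σ⁻¹ i) = i := σ.apply_symm_apply i
    rw [h3] at h2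
    rw [h1, ← h2, ← Set.image_comp]
    have : (a.symm : (Fin n → ℂ) → (Fin n → ℂ)) ∘ a = id := by
      funext x; exact a.symm_apply_apply x
    rw [this, Set.image_id]

/-- the polynomial `p (X z)` in the entries of the matrix `X` -/
noncomputable def bsP (z : Fin n → ℂ) (p : MvPolynomial (Fin n) ℂ) :
    MvPolynomial (Fin n × Fin n) ℂ :=
  bind₁ (fun a => ∑ b, C (z b) * X (a, b)) p

theorem eval_bsP (A : Matrix (Fin n) (Fin n) ℂ) (z : Fin n → ℂ) (p : MvPolynomial (Fin n) ℂ) :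
    eval (fun ij => A ij.1 ij.2) (bsP z p) = eval (A.mulVec z) p := by
  have h : ∀ a, eval (fun ij : Fin n × Fin n => A ij.1 ij.2) (∑ b, C (z b) * X (a, b)) =
      A.mulVec z a := by
    intro a
    rw [map_sum]
    simp only [map_mul, eval_C, eval_X, Matrix.mulVec, dotProduct]
    exact Finset.sum_congr rfl fun b _ => mul_comm _ _
  unfold bsP
  rw [show (eval fun ij : Fin n × Fin n => A ij.1 ij.2) (bind₁ (fun a => ∑ b, C (z b) * X (a, b)) p) =
    eval (fun a => eval (fun ij : Fin n × Fin n => A ij.1 ij.2) (∑ b, C (z b) * X (a, b))) p from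
      eval₂Hom_bind₁ _ _ _ _]
  rw [show (fun a => eval (fun ij : Fin n × Fin n => A ij.1 ij.2) (∑ b, C (z b) * X (a, b))) =
    A.mulVec z from funext h]

/-- equations of the matrices taking `Z i` into `Z (σ i)` for all `i` -/
theorem bs_eqs (Z : ι → Set (Fin n → ℂ)) (hZ : IsComponents Z) (σ : ι → ι) :
    ∃ F : Set (MvPolynomial (Fin n × Fin n) ℂ), F.Finite ∧ ∀ A : Matrix (Fin n) (Fin n) ℂ,
      (∀ f ∈ F, eval (fun ij => A ij.1 ij.2) f = 0) ↔ ∀ i, ∀ z ∈ Z i, A.mulVec z ∈ Z (σ i) := by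
  classical
  let P : Set (MvPolynomial (Fin n × Fin n) ℂ) :=
    {f | ∃ i, ∃ z ∈ Z i, ∃ p ∈ vanishingIdeal ℂ (Z (σ i)), f = bsP z p}
  have hfg : (Ideal.span P).FG := IsNoetherian.noetherian _
  obtain ⟨s, hs, hsp⟩ := Submodule.fg_span_iff_fg_span_finset_subset P |>.1 hfg
  refine ⟨s, s.finite_toSet, fun A => ⟨fun h i z hz => ?_, fun h f hf => ?_⟩⟩
  · rw [(hZ.closed (σ i)).mem_iff]
    intro p hp
    have h1 : bsP z p ∈ Ideal.span (s : Set (MvPolynomial (Fin n × Fin n) ℂ)) := by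
      have h2 : bsP z p ∈ Ideal.span P :=
        Ideal.subset_span ⟨i, z, hz, p, Pool.Agent.Helper48.VMRT.mem_vI.2 hp, rfl⟩
      have h3 : Ideal.span P = Ideal.span (s : Set (MvPolynomial (Fin n × Fin n) ℂ)) := hsp
      rwa [h3] at h2
    have h4 : Ideal.span (s : Set (MvPolynomial (Fin n × Fin n) ℂ)) ≤
        RingHom.ker (eval (fun ij : Fin n × Fin n => A ij.1 ij.2)) := by
      rw [Ideal.span_le]
      intro f hf
      exact h f hf
    have h5 := h4 h1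
    rw [RingHom.mem_ker, eval_bsP] at h5
    exact h5
  · obtain ⟨i, z, hz, p, hp, rfl⟩ := hs hf
    rw [eval_bsP]
    exact Pool.Agent.Helper48.VMRT.mem_vI.1 hp _ (h i z hz)

/-- **Borel-Serre** for the linear automorphisms of a projective variety. -/
theorem bs_finite [Finite ι] (Z : ι → Set (Fin n → ℂ)) (hZ : IsComponents Z)
    (htr : ∀ i j : ι, ∃ a : (Fin n → ℂ) ≃ₗ[ℂ] (Fin n → ℂ),
      a '' (⋃ i, Z i) = (⋃ i, Z i) ∧ a '' Z i = Z j) :
    ∃ G : Subgroup ((Fin n → ℂ) ≃ₗ[ℂ] (Fin n → ℂ)), Finite G ∧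
      (∀ g ∈ G, g '' (⋃ i, Z i) = ⋃ i, Z i) ∧ ∀ i j : ι, ∃ g ∈ G, g '' Z i = Z j := by
  classical
  let Γ : Subgroup (Matrix.GeneralLinearGroup (Fin n) ℂ × bsQ Z) :=
    { carrier := {x | ∀ i, glEquiv n x.1 '' Z i = Z (x.2.1 i)}
      mul_mem' := by
        rintro x y hx hy i
        have h1 : (glEquiv n (x * y).1 : (Fin n → ℂ) → (Fin n → ℂ)) =
            glEquiv n x.1 ∘ glEquiv n y.1 := by
          rw [Prod.fst_mul, map_mul]; rfl
        rw [h1, Set.image_comp, hy i, hx]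
        rfl
      one_mem' := by
        intro i
        have h1 : (glEquiv n (1 : Matrix.GeneralLinearGroup (Fin n) ℂ × bsQ Z).1 :
            (Fin n → ℂ) → (Fin n → ℂ)) = id := by
          rw [Prod.fst_one, map_one]; rfl
        rw [h1, Set.image_id]
        rfl
      inv_mem' := by
        intro x hx i
        have h1 : (glEquiv n (x⁻¹).1 : (Fin n → ℂ) → (Fin n → ℂ)) = (glEquiv n x.1).symm := by
          rw [Prod.fst_inv, map_inv]; rfl
        have h2 := hx ((x.2.1)⁻¹ i)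
        have h3 : x.2.1 ((x.2.1)⁻¹ i) = i := (x.2.1).apply_symm_apply i
        rw [h3] at h2
        rw [h1, ← h2, ← Set.image_comp]
        have : ((glEquiv n x.1).symm : (Fin n → ℂ) → (Fin n → ℂ)) ∘ glEquiv n x.1 = id := by
          funext v; exact (glEquiv n x.1).symm_apply_apply v
        rw [this, Set.image_id]
        rfl }
  choose F hFfin hF using fun q : bsQ Z => bs_eqs Z hZ q.1
  have hmem : ∀ (x : Matrix.GeneralLinearGroup (Fin n) ℂ × bsQ Z), x ∈ Γ ↔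
      ∀ i, glEquiv n x.1 '' Z i = Z (x.2.1 i) := fun x => Iff.rfl
  obtain ⟨S, iS, fS, ρ, π, hπ, hρ⟩ := bs_core F hFfin Γ (by
    rintro ⟨q, a, ha⟩
    refine ⟨(glEquiv n).symm a, ?_⟩
    rw [hmem]
    intro i
    rw [MulEquiv.apply_symm_apply]
    exact ha i) (by
    intro x hx
    rw [hF]
    intro i z hz
    rw [← (hmem x).1 hx i]
    exact ⟨z, hz, rfl⟩)
  have hinto : ∀ s i, ∀ z ∈ Z i, glEquiv n (ρ s) z ∈ Z ((π s).1 i) := by
    intro s
    exact (hF (π s) _).1 (hρ s)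
  have heq : ∀ s i, glEquiv n (ρ s) '' Z i = Z ((π s).1 i) := by
    intro s i
    refine Set.Subset.antisymm ?_ ?_
    · rintro _ ⟨z, hz, rfl⟩
      exact hinto s i z hz
    · intro x hx
      have h1 := hinto s⁻¹ _ x hx
      have h2 : (π s⁻¹).1 ((π s).1 i) = i := by
        rw [map_inv]
        exact ((π s).1).symm_apply_apply i
      rw [h2, map_inv, map_inv] at h1
      exact ⟨_, h1, (glEquiv n (ρ s)).apply_symm_apply x⟩
  refine ⟨((glEquiv n).toMonoidHom.comp ρ).range, ?_, ?_, ?_⟩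
  · exact Finite.of_surjective _ ((glEquiv n).toMonoidHom.comp ρ).rangeRestrict_surjective
  · rintro _ ⟨s, rfl⟩
    change glEquiv n (ρ s) '' _ = _
    rw [Set.image_iUnion]
    refine Set.Subset.antisymm ?_ ?_
    · refine Set.iUnion_subset fun i => ?_
      rw [heq]
      exact Set.subset_iUnion _ _
    · refine Set.iUnion_subset fun j => ?_
      have h3 : (π s).1 ((π s).1.symm j) = j := (π s).1.apply_symm_apply j
      refine Set.Subset.trans ?_ (Set.subset_iUnion _ ((π s).1.symm j))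
      rw [heq, h3]
  · intro i j
    obtain ⟨a, ha, haij⟩ := htr i j
    obtain ⟨σ, hσ⟩ := bs_perm Z hZ a ha
    obtain ⟨s, hs⟩ := hπ ⟨σ, a, hσ⟩
    have h1 : σ i = j := by
      have h2 : Z (σ i) = Z j := by rw [← hσ i, haij]
      exact hZ.irredundant _ _ h2.le
    refine ⟨_, ⟨s, rfl⟩, ?_⟩
    change glEquiv n (ρ s) '' _ = _
    rw [heq, hs, h1]

end Pool.Agent.Helper87.VM
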