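import Mathlib

/-!
Solutions of a polynomial system over a finitely generated domain `R ⊆ ℂ` modulo all powers of a
proper ideal give a solution in `ℂ`.
-/

set_option autoImplicit false

namespace Pool.Agent.Helper87.VM

open MvPolynomial

attribute [local instance] MvPolynomial.algebraMvPolynomial

/-- If a system of polynomial equations over the Noetherian domain `R ⊆ ℂ` is solvable modulo all
powers of a proper ideal, it is solvable in `ℂ` (Krull, Zariski). -/
theorem bs_null {R : Type} [CommRing R] [IsDomain R] [IsNoetherianRing R] [Algebra R ℂ]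
    (hinj : Function.Injective (algebraMap R ℂ)) {σ : Type} [Finite σ]
    (E : Set (MvPolynomial σ R)) (m : Ideal R) (hm : m ≠ ⊤)
    (h : ∀ k : ℕ, ∃ k', k ≤ k' ∧ ∃ x : σ → R ⧸ m ^ k', ∀ f ∈ E, aeval x f = 0) :
    ∃ x : σ → ℂ, ∀ f ∈ E, aeval x f = 0 := by
  classical
  have key : ∀ r : R, r ≠ 0 → C r ∉ Ideal.span E := by
    intro r hr hmem
    apply hr
    have h1 : r ∈ (⨅ k : ℕ, m ^ k) := by
      rw [Ideal.mem_iInf]
      intro k
      obtain ⟨k', hk', x, hx⟩ := h k
      refine Ideal.pow_le_pow_right hk' ?_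
      have h2 : Ideal.span E ≤ RingHom.ker (aeval x : MvPolynomial σ R →ₐ[R] R ⧸ m ^ k') := by
        rw [Ideal.span_le]
        intro f hf
        exact hx f hf
      have h3 := h2 hmem
      rw [RingHom.mem_ker, aeval_C] at h3
      exact Ideal.Quotient.eq_zero_iff_mem.1 h3
    rw [Ideal.iInf_pow_eq_bot_of_isDomain m hm] at h1
    simpa using h1
  let K := FractionRing R
  have : FaithfulSMul R ℂ := (faithfulSMul_iff_algebraMap_injective R ℂ).2 hinj
  let _ : Algebra K ℂ := FractionRing.liftAlgebra R ℂ
  have hst : IsScalarTower R K ℂ := inferInstance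
  let J : Ideal (MvPolynomial σ K) := (Ideal.span E).map (algebraMap (MvPolynomial σ R) (MvPolynomial σ K))
  have hJ : J ≠ ⊤ := by
    rw [IsLocalization.map_algebraMap_ne_top_iff_disjoint ((nonZeroDivisors R).map (C : R →+* MvPolynomial σ R))]
    rw [Set.disjoint_left]
    rintro _ ⟨r, hr, rfl⟩ hmem
    exact key r (nonZeroDivisors.ne_zero hr) hmem
  obtain ⟨N, hN, hJN⟩ := Ideal.exists_le_maximal J hJ
  let _ : Field (MvPolynomial σ K ⧸ N) := Ideal.Quotient.field N
  have : Module.Finite K (MvPolynomial σ K ⧸ N) := finite_of_finite_type_of_isJacobsonRing K _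
  let ψ : (MvPolynomial σ K ⧸ N) →ₐ[K] ℂ := IsAlgClosed.lift
  refine ⟨fun s => ψ (Ideal.Quotient.mk N (X s)), fun f hf => ?_⟩
  have h5 : ∀ g : MvPolynomial σ R, aeval (fun s => ψ (Ideal.Quotient.mk N (X s))) g =
      ψ (Ideal.Quotient.mk N (algebraMap (MvPolynomial σ R) (MvPolynomial σ K) g)) := by
    intro g
    induction g using MvPolynomial.induction_on with
    | C a =>
      have e1 : (algebraMap (MvPolynomial σ R) (MvPolynomial σ K)) (C a) = C (algebraMap R K a) := by
        rw [MvPolynomial.algebraMap_def]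
        exact MvPolynomial.map_C _ _
      rw [aeval_C, e1]
      have e2 : (Ideal.Quotient.mk N) (C (algebraMap R K a)) =
          algebraMap K (MvPolynomial σ K ⧸ N) (algebraMap R K a) := rfl
      rw [e2, AlgHom.commutes]
      exact IsScalarTower.algebraMap_apply R K ℂ a
    | add p q hp hq => simp only [map_add, hp, hq]
    | mul_X p s hp =>
      have e1 : (algebraMap (MvPolynomial σ R) (MvPolynomial σ K)) (X s) = X s := by
        rw [MvPolynomial.algebraMap_def]
        exact MvPolynomial.map_X _ _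
      rw [map_mul, map_mul, map_mul, map_mul, hp, aeval_X, e1]
  rw [h5]
  have h6 : algebraMap (MvPolynomial σ R) (MvPolynomial σ K) f ∈ N :=
    hJN (Ideal.mem_map_of_mem _ (Ideal.subset_span hf))
  rw [Ideal.Quotient.eq_zero_iff_mem.2 h6, map_zero]

end Pool.Agent.Helper87.VM
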