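import Pool.Agent.Helper87.VM.BS.Mod
import Pool.Agent.Helper87.VM.BS.Null
import Pool.Agent.Helper69.DF.Residue

/-!
Borel-Serre: a group of complex matrices `Γ`, mapping onto a finite group `Q` with fibres cut out
by polynomial equations, contains up to these equations a finite group mapping onto `Q`.
-/

set_option autoImplicit false

namespace Pool.Agent.Helper87.VM

open Matrix MvPolynomial

/-- Borel-Serre over a finitely generated domain. -/
theorem bs_dom {R : Type} [CommRing R] [IsDomain R] [IsNoetherianRing R] [Algebra R ℂ]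
    (hinj : Function.Injective (algebraMap R ℂ)) {n : ℕ} {Q : Type} [Group Q] [Finite Q]
    (F : Q → Set (MvPolynomial (Fin n × Fin n) R))
    (m : Ideal R) (hm : m ≠ ⊤) [Finite (R ⧸ m)] (p : ℕ) [Fact p.Prime] (hp : (p : R) ∈ m)
    (hpQ : ¬ p ∣ Nat.card Q) (Γ : Subgroup (GL (Fin n) R × Q)) (hsurj : ∀ q, ∃ g, (g, q) ∈ Γ)
    (hΓ : ∀ x ∈ Γ, ∀ f ∈ F x.2,
      aeval (fun ij => (x.1 : Matrix (Fin n) (Fin n) R) ij.1 ij.2) f = (0 : R)) :
    ∃ (S : Type) (_ : Group S) (_ : Finite S) (ρ : S →* GL (Fin n) ℂ) (π : S →* Q),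
      Function.Surjective π ∧ ∀ s, ∀ f ∈ F (π s),
        aeval (fun ij => (ρ s : Matrix (Fin n) (Fin n) ℂ) ij.1 ij.2) f = (0 : ℂ) := by
  classical
  obtain ⟨S, hS1, hS2⟩ := bs_mod m p hp hpQ Γ hsurj
  have _ : Fintype (R ⧸ m) := Fintype.ofFinite _
  have hSfin : Finite S := inferInstance
  let σ := S × (Fin n × Fin n)
  let Emul : S × S × Fin n × Fin n → MvPolynomial σ R := fun z =>
    (∑ c : Fin n, X (z.1, (z.2.2.1, c)) * X (z.2.1, (c, z.2.2.2))) -
      X (z.1 * z.2.1, (z.2.2.1, z.2.2.2))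
  let Eone : Fin n × Fin n → MvPolynomial σ R := fun z =>
    X (1, z) - C ((1 : Matrix (Fin n) (Fin n) R) z.1 z.2)
  let EF : Set (MvPolynomial σ R) :=
    {g | ∃ s : S, ∃ f ∈ F s.1.2, g = rename (fun ij => (s, ij)) f}
  obtain ⟨x, hx⟩ := bs_null hinj (Set.range Emul ∪ Set.range Eone ∪ EF) m hm (by
    intro k
    obtain ⟨k', hk', r, hr1, hr2, hr3⟩ := hS2 k
    refine ⟨k', hk', fun s => Ideal.Quotient.mk _ ((r s.1 : Matrix (Fin n) (Fin n) R) s.2.1 s.2.2), ?_⟩
    have hval : ∀ f : MvPolynomial σ R, aeval (fun s : σ => (Ideal.Quotient.mk (m ^ k')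
        ((r s.1 : Matrix (Fin n) (Fin n) R) s.2.1 s.2.2))) f = Ideal.Quotient.mk (m ^ k')
        (aeval (fun s : σ => (r s.1 : Matrix (Fin n) (Fin n) R) s.2.1 s.2.2) f) := by
      intro f
      have h1 : ((Ideal.Quotient.mkₐ R (m ^ k')).comp
          (aeval (fun s : σ => (r s.1 : Matrix (Fin n) (Fin n) R) s.2.1 s.2.2))) =
          aeval (fun s : σ => (Ideal.Quotient.mk (m ^ k')
            ((r s.1 : Matrix (Fin n) (Fin n) R) s.2.1 s.2.2))) := by
        ext s
        simp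
      rw [← h1]
      rfl
    rintro f ((⟨z, rfl⟩ | ⟨z, rfl⟩) | ⟨s, f, hf, rfl⟩)
    · rw [hval]
      rw [Ideal.Quotient.eq_zero_iff_mem]
      have := hr2 z.1 z.2.1 z.2.2.1 z.2.2.2
      rw [Matrix.mul_apply] at this
      simpa [Emul] using this
    · rw [hval]
      rw [Ideal.Quotient.eq_zero_iff_mem]
      have := hr3 z.1 z.2
      simpa [Eone] using this
    · rw [hval, aeval_rename]
      have := hΓ _ (hr1 s) f hf
      change Ideal.Quotient.mk (m ^ k') (aeval (fun ij => (r s : Matrix (Fin n) (Fin n) R) ij.1 ij.2) f) = 0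
      rw [this, map_zero])
  let M : S → Matrix (Fin n) (Fin n) ℂ := fun s => Matrix.of fun i j => x (s, (i, j))
  have hM1 : M 1 = 1 := by
    ext i j
    have h1 := hx (Eone (i, j)) (Or.inl (Or.inr ⟨_, rfl⟩))
    simp only [Eone, map_sub, aeval_X, aeval_C, sub_eq_zero] at h1
    change x (1, (i, j)) = _
    rw [h1]
    by_cases hij : i = j
    · subst hij; simp
    · simp [Matrix.one_apply_ne hij]
  have hM2 : ∀ s t, M (s * t) = M s * M t := by
    intro s t
    ext i j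
    have h1 := hx (Emul (s, t, i, j)) (Or.inl (Or.inl ⟨_, rfl⟩))
    simp only [Emul, map_sub, map_sum, map_mul, aeval_X, sub_eq_zero] at h1
    rw [Matrix.mul_apply]
    exact h1.symm
  let Mh : S →* Matrix (Fin n) (Fin n) ℂ :=
    { toFun := M, map_one' := hM1, map_mul' := hM2 }
  refine ⟨S, inferInstance, hSfin, Mh.toHomUnits, (MonoidHom.snd _ _).comp S.subtype, ?_, ?_⟩
  · intro q
    obtain ⟨s, hs, hsq⟩ := hS1 q
    exact ⟨⟨s, hs⟩, hsq⟩
  · intro s f hf
    have h1 := hx (rename (fun ij => (s, ij)) f) (Or.inr ⟨s, f, hf, rfl⟩)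
    rw [aeval_rename] at h1
    exact h1

/-- Borel-Serre for groups of complex matrices. -/
theorem bs_core {n : ℕ} {Q : Type} [Group Q] [Finite Q]
    (F : Q → Set (MvPolynomial (Fin n × Fin n) ℂ)) (hF : ∀ q, (F q).Finite)
    (Γ : Subgroup (GL (Fin n) ℂ × Q)) (hsurj : ∀ q, ∃ g, (g, q) ∈ Γ)
    (hΓ : ∀ x ∈ Γ, ∀ f ∈ F x.2,
      eval (fun ij => (x.1 : Matrix (Fin n) (Fin n) ℂ) ij.1 ij.2) f = 0) :
    ∃ (S : Type) (_ : Group S) (_ : Finite S) (ρ : S →* GL (Fin n) ℂ) (π : S →* Q),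
      Function.Surjective π ∧ ∀ s, ∀ f ∈ F (π s),
        eval (fun ij => (ρ s : Matrix (Fin n) (Fin n) ℂ) ij.1 ij.2) f = 0 := by
  classical
  choose a ha using hsurj
  let T1 : Set ℂ := Set.range fun z : Q × Fin n × Fin n =>
    (a z.1 : Matrix (Fin n) (Fin n) ℂ) z.2.1 z.2.2
  let T2 : Set ℂ := Set.range fun z : Q × Fin n × Fin n =>
    ((a z.1)⁻¹ : GL (Fin n) ℂ) z.2.1 z.2.2
  let T3 : Set ℂ := ⋃ q : Q, ⋃ f ∈ F q, (f.coeffs : Set ℂ)
  let T : Set ℂ := T1 ∪ T2 ∪ T3 ∪ {(Nat.card Q : ℂ)⁻¹}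
  have hT : T.Finite := by
    refine (((Set.finite_range _).union (Set.finite_range _)).union ?_).union (Set.finite_singleton _)
    exact Set.finite_iUnion fun q => (hF q).biUnion fun f _ => Finset.finite_toSet _
  let R : Subalgebra ℤ ℂ := Algebra.adjoin ℤ T
  have hft : Algebra.FiniteType ℤ R :=
    (Subalgebra.fg_iff_finiteType R).mp (Subalgebra.fg_def.mpr ⟨T, hT, rfl⟩)
  have hnoeth : IsNoetherianRing R := Algebra.FiniteType.isNoetherianRing ℤ R
  have hinj : Function.Injective (algebraMap R ℂ) := Subtype.val_injective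
  have hR1 : ∀ q i j, (a q : Matrix (Fin n) (Fin n) ℂ) i j ∈ R := fun q i j =>
    Algebra.subset_adjoin (Or.inl (Or.inl (Or.inl ⟨(q, i, j), rfl⟩)))
  have hR2 : ∀ q i j, ((a q)⁻¹ : GL (Fin n) ℂ) i j ∈ R := fun q i j =>
    Algebra.subset_adjoin (Or.inl (Or.inl (Or.inr ⟨(q, i, j), rfl⟩)))
  have hR3 : ∀ q, ∀ f ∈ F q, ∃ g : MvPolynomial (Fin n × Fin n) R, map (algebraMap R ℂ) g = f := by
    intro q f hf
    have h1 : f ∈ Set.range (MvPolynomial.map (σ := Fin n × Fin n) (algebraMap R ℂ)) := by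
      rw [mem_range_map_iff_coeffs_subset]
      intro c hc
      refine ⟨⟨c, Algebra.subset_adjoin (Or.inl (Or.inr ?_))⟩, rfl⟩
      exact Set.mem_iUnion.2 ⟨q, Set.mem_iUnion₂.2 ⟨f, hf, hc⟩⟩
    exact h1
  have hcard : ((Nat.card Q : ℕ) : ℂ) ≠ 0 := by
    have : Nat.card Q ≠ 0 := Nat.card_pos.ne'
    exact_mod_cast this
  let mp : GL (Fin n) R × Q →* GL (Fin n) ℂ × Q :=
    (Matrix.GeneralLinearGroup.map (algebraMap R ℂ)).prodMap (MonoidHom.id Q)
  -- lifts of the `a q`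
  let A : Q → GL (Fin n) R := fun q =>
    { val := Matrix.of fun i j => ⟨_, hR1 q i j⟩
      inv := Matrix.of fun i j => ⟨_, hR2 q i j⟩
      val_inv := by
        ext i j
        have h1 : ((a q : Matrix (Fin n) (Fin n) ℂ) * ((a q)⁻¹ : GL (Fin n) ℂ).1) i j =
            (1 : Matrix (Fin n) (Fin n) ℂ) i j := by
          rw [← Units.val_mul, mul_inv_cancel]; rfl
        rw [Matrix.mul_apply] at h1
        by_cases hij : i = j
        · subst hij
          simpa [Matrix.mul_apply] using h1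
        · simpa [Matrix.mul_apply, Matrix.one_apply_ne hij] using h1
      inv_val := by
        ext i j
        have h1 : (((a q)⁻¹ : GL (Fin n) ℂ).1 * (a q : Matrix (Fin n) (Fin n) ℂ)) i j =
            (1 : Matrix (Fin n) (Fin n) ℂ) i j := by
          rw [← Units.val_mul, inv_mul_cancel]; rfl
        rw [Matrix.mul_apply] at h1
        by_cases hij : i = j
        · subst hij
          simpa [Matrix.mul_apply] using h1
        · simpa [Matrix.mul_apply, Matrix.one_apply_ne hij] using h1 }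
  have hA : ∀ q, mp (A q, q) = (a q, q) := by
    intro q
    refine Prod.ext ?_ rfl
    apply Units.ext
    ext i j
    rfl
  let FR : Q → Set (MvPolynomial (Fin n × Fin n) R) := fun q => {f | map (algebraMap R ℂ) f ∈ F q}
  obtain ⟨m, hm, hmfin⟩ := Pool.Agent.Helper69.DF.exists_finite_residue R
  obtain ⟨p, hpp, hpm⟩ : ∃ p : ℕ, p.Prime ∧ ((p : ℕ) : R) ∈ m := by
    let _ := Ideal.Quotient.field m
    obtain ⟨p, hp⟩ := CharP.exists (R ⧸ m)
    have hp0 : p ≠ 0 := CharP.char_ne_zero_of_finite (R ⧸ m) p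
    have hpp : p.Prime := CharP.char_prime_of_ne_zero (R ⧸ m) hp0
    refine ⟨p, hpp, ?_⟩
    rw [← Ideal.Quotient.eq_zero_iff_mem, map_natCast]
    exact CharP.cast_eq_zero (R ⧸ m) p
  have hpQ : ¬ p ∣ Nat.card Q := by
    rintro ⟨c, hc⟩
    apply hm.ne_top
    have hinv : (Nat.card Q : ℂ)⁻¹ ∈ R := Algebra.subset_adjoin (Or.inr rfl)
    have h1 : (⟨(Nat.card Q : ℂ)⁻¹, hinv⟩ : R) * ((Nat.card Q : ℕ) : R) = 1 := by
      apply Subtype.ext
      push_cast
      exact inv_mul_cancel₀ hcard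
    have h2 : ((Nat.card Q : ℕ) : R) ∈ m := by
      rw [hc]
      push_cast
      exact Ideal.mul_mem_right _ _ hpm
    rw [Ideal.eq_top_iff_one, ← h1]
    exact Ideal.mul_mem_left _ _ h2
  have _ : Fact p.Prime := ⟨hpp⟩
  have hev : ∀ (x : Fin n × Fin n → R) (f : MvPolynomial (Fin n × Fin n) R),
      eval (fun ij => algebraMap R ℂ (x ij)) (map (algebraMap R ℂ) f) =
        algebraMap R ℂ (aeval x f) := by
    intro x f
    rw [eval_map, aeval_def, eval₂_comp_left (algebraMap R ℂ) (algebraMap R R) x f]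
    rfl
  obtain ⟨S, iS, fS, ρ, π, hπ, hρ⟩ := bs_dom hinj FR m hm.ne_top p hpm hpQ (Γ.comap mp)
    (fun q => ⟨A q, by rw [Subgroup.mem_comap, hA]; exact ha q⟩) (by
      intro x hx f hf
      apply hinj
      rw [← hev, map_zero]
      exact hΓ (mp x) hx _ hf)
  refine ⟨S, iS, fS, ρ, π, hπ, ?_⟩
  intro s f hf
  obtain ⟨g, rfl⟩ := hR3 _ f hf
  have h1 := hρ s g hf
  rw [aeval_def] at h1
  rw [eval_map]
  exact h1

end Pool.Agent.Helper87.VM
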