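import Mathlib

/-!
Group theory for the Borel-Serre argument: if `N` is normal in the finite group `G` and `p` does
not divide the index of `N`, there is a subgroup `S` of order prime to `p` with `S N = G`.
-/

set_option autoImplicit false

namespace Pool.Agent.Helper87.VM

/-- Sylow, Frattini and Schur-Zassenhaus. -/
theorem bs_fg (p : ℕ) [Fact p.Prime] {G : Type*} [Group G] [Finite G] (N : Subgroup G) [N.Normal]
    (h : ¬ p ∣ N.index) : ∃ S : Subgroup G, ¬ p ∣ Nat.card S ∧ S ⊔ N = ⊤ := by
  classical
  obtain ⟨P⟩ : Nonempty (Sylow p N) := inferInstance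
  have hfr := Sylow.normalizer_sup_eq_top P
  set P' : Subgroup G := (P : Subgroup N).map N.subtype with hP'
  have hle : P' ≤ N := Subgroup.map_subtype_le _
  have hnorm : P' ≤ Subgroup.normalizer (P' : Set G) := Subgroup.le_normalizer
  set H : Subgroup G := Subgroup.normalizer (P' : Set G) with hH
  have hN : (P'.subgroupOf H).Normal := Subgroup.normal_in_normalizer
  -- card of P' is a power of p
  have hcard : ∃ k, Nat.card P' = p ^ k := by
    have h1 : IsPGroup p P' := by
      rw [hP']
      exact P.isPGroup'.map N.subtype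
    exact IsPGroup.iff_card.1 h1
  have hidx : ¬ p ∣ P'.index := by
    have h1 : P'.index = (P : Subgroup N).index * N.index := by
      rw [hP', Subgroup.index_map_subtype]
    rw [h1, Nat.Prime.dvd_mul Fact.out]
    rintro (h2 | h2)
    · exact P.not_dvd_index h2
    · exact h h2
  have hrel : ¬ p ∣ (P'.subgroupOf H).index := by
    intro h2
    apply hidx
    have h3 : (P'.subgroupOf H).index * H.index = P'.index := by
      have := Subgroup.relIndex_mul_index hnorm
      simpa [Subgroup.relIndex] using this
    rw [← h3]
    exact h2.mul_right _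
  have hco : Nat.Coprime (Nat.card (P'.subgroupOf H)) (P'.subgroupOf H).index := by
    obtain ⟨k, hk⟩ := hcard
    have h4 : Nat.card (P'.subgroupOf H) = p ^ k := by
      rw [← hk]
      exact Nat.card_congr (Subgroup.subgroupOfEquivOfLe hnorm).toEquiv
    rw [h4]
    exact Nat.Coprime.pow_left _ ((Nat.Prime.coprime_iff_not_dvd Fact.out).2 hrel)
  obtain ⟨S0, hS0⟩ := Subgroup.exists_right_complement'_of_coprime hco
  refine ⟨S0.map H.subtype, ?_, ?_⟩
  · have h5 : Nat.card (S0.map H.subtype) = Nat.card S0 :=
      Nat.card_congr (S0.equivMapOfInjective _ H.subtype_injective).toEquiv.symm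
    rw [h5]
    have h6 : (P'.subgroupOf H).index = Nat.card S0 := hS0.symm.index_eq_card
    rw [← h6]
    exact hrel
  · rw [eq_top_iff, ← hfr]
    refine sup_le ?_ le_sup_right
    have h7 : (P'.subgroupOf H) ⊔ S0 = ⊤ := hS0.sup_eq_top
    have h8 : (P'.subgroupOf H).map H.subtype ⊔ S0.map H.subtype = H := by
      rw [← Subgroup.map_sup, h7, ← MonoidHom.range_eq_map, Subgroup.range_subtype]
    change H ≤ _
    refine h8.symm.le.trans ?_
    refine sup_le ?_ le_sup_left
    refine le_trans ?_ (le_sup_of_le_right hle)
    exact (Subgroup.map_subgroupOf_eq_of_le hnorm).le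

end Pool.Agent.Helper87.VM
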