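import Pool.Agent.Helper87.VM.BS.Grp

/-!
Congruence quotients of a group of matrices over a Noetherian domain: subgroups of order prime to
`p` covering a quotient of order prime to `p`, uniformly in the modulus `m ^ k`.
-/

set_option autoImplicit false

namespace Pool.Agent.Helper87.VM

open Matrix

/-- `A ≡ 1` modulo `m` implies `A ^ (p ^ j) ≡ 1` modulo `m ^ (j + 1)`. -/
theorem bs_pow {R : Type} [CommRing R] {n : ℕ} (m : Ideal R) (p : ℕ) (hp : (p : R) ∈ m)
    (A : Matrix (Fin n) (Fin n) R) (hA : ∀ i j, (A - 1) i j ∈ m) (k : ℕ) :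
    ∀ i j, (A ^ (p ^ k) - 1) i j ∈ m ^ (k + 1) := by
  induction k with
  | zero => simpa using hA
  | succ k ih =>
    intro i j
    set B := A ^ (p ^ k) with hB
    have h1 : A ^ (p ^ (k + 1)) - 1 = (B - 1) * ∑ i ∈ Finset.range p, B ^ i := by
      rw [mul_geom_sum, hB, ← pow_mul, pow_succ]
    -- powers of B are 1 modulo m
    have hB1 : ∀ l : ℕ, ∀ i j, (B ^ l - 1) i j ∈ m := by
      intro l
      induction l with
      | zero => intro i j; simp
      | succ l ihl =>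
        intro i j
        have h2 : B ^ (l + 1) - 1 = (B ^ l - 1) * B + (B - 1) := by
          rw [pow_succ, sub_mul, one_mul]; abel
        rw [h2, Matrix.add_apply, Matrix.mul_apply]
        refine add_mem (Ideal.sum_mem _ fun c _ => Ideal.mul_mem_right _ _ (ihl i c)) ?_
        exact Ideal.pow_le_self (Nat.succ_ne_zero k) (ih i j)
    have h3 : ∀ i j, (∑ l ∈ Finset.range p, B ^ l) i j ∈ m := by
      intro i j
      have h4 : (∑ l ∈ Finset.range p, B ^ l) =
          (∑ l ∈ Finset.range p, (B ^ l - 1)) + (p : Matrix (Fin n) (Fin n) R) := by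
        rw [Finset.sum_sub_distrib]
        simp
      rw [h4, Matrix.add_apply, Matrix.sum_apply]
      refine add_mem (Ideal.sum_mem _ fun l _ => hB1 l i j) ?_
      have h5 : ((p : Matrix (Fin n) (Fin n) R)) i j = (p : R) * (1 : Matrix (Fin n) (Fin n) R) i j := by
        have : (p : Matrix (Fin n) (Fin n) R) = (p : R) • (1 : Matrix (Fin n) (Fin n) R) := by
          rw [← nsmul_one p]
          ext a b
          simp [Matrix.smul_apply, Matrix.one_apply]
        rw [this]; rfl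
      rw [h5]
      exact Ideal.mul_mem_right _ _ hp
    rw [h1, Matrix.mul_apply, pow_succ]
    exact Ideal.sum_mem _ fun c _ => Ideal.mul_mem_mul (ih i c) (h3 c j)

section

variable {R : Type} [CommRing R] {n : ℕ} {Q : Type} [Group Q]

/-- reduction of matrices modulo the ideal `I` -/
def redq (n : ℕ) (Q : Type) [Group Q] (I : Ideal R) :
    GL (Fin n) R × Q →* GL (Fin n) (R ⧸ I) × Q :=
  (Matrix.GeneralLinearGroup.map (Ideal.Quotient.mk I)).prodMap (MonoidHom.id Q)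

theorem redq_snd (I : Ideal R) (x : GL (Fin n) R × Q) : (redq n Q I x).2 = x.2 := rfl

theorem redq_apply (I : Ideal R) (x : GL (Fin n) R × Q) (i j : Fin n) :
    ((redq n Q I x).1 : Matrix (Fin n) (Fin n) (R ⧸ I)) i j =
      Ideal.Quotient.mk I ((x.1 : Matrix (Fin n) (Fin n) R) i j) := rfl

theorem redq_eq_iff (I : Ideal R) (x y : GL (Fin n) R × Q) :
    redq n Q I x = redq n Q I y ↔ x.2 = y.2 ∧
      ∀ i j, (x.1 : Matrix (Fin n) (Fin n) R) i j - (y.1 : Matrix (Fin n) (Fin n) R) i j ∈ I := by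
  constructor
  · intro h
    refine ⟨?_, fun i j => ?_⟩
    · have := congrArg Prod.snd h
      simpa [redq_snd] using this
    · rw [← Ideal.Quotient.eq, ← redq_apply (Q := Q), ← redq_apply (Q := Q), h]
  · rintro ⟨h1, h2⟩
    refine Prod.ext ?_ ?_
    · apply Units.ext
      ext i j
      have := (Ideal.Quotient.eq.2 (h2 i j))
      rw [← redq_apply (Q := Q), ← redq_apply (Q := Q)] at this
      exact this
    · rw [redq_snd, redq_snd, h1]

theorem redq_pow (m : Ideal R) (p : ℕ) (hp : (p : R) ∈ m) (x : GL (Fin n) R × Q)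
    (hx : redq n Q m x = 1) (k : ℕ) : redq n Q (m ^ (k + 1)) x ^ (p ^ k) = 1 := by
  rw [← map_one (redq n Q m), redq_eq_iff] at hx
  obtain ⟨h1, h2⟩ := hx
  rw [← map_pow, ← map_one (redq n Q (m ^ (k + 1))), redq_eq_iff]
  refine ⟨?_, fun i j => ?_⟩
  · change x.2 ^ (p ^ k) = 1
    have : x.2 = 1 := h1
    rw [this, one_pow]
  · have := bs_pow m p hp (x.1 : Matrix (Fin n) (Fin n) R) (fun i j => h2 i j) k i j
    simpa using this

/-- a subgroup of order prime to `p` of the image of `Γ`, covering `Q` -/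
theorem bs_step [Finite Q] (I : Ideal R) [Finite (R ⧸ I)] (p : ℕ) [Fact p.Prime]
    (hpQ : ¬ p ∣ Nat.card Q) (Γ : Subgroup (GL (Fin n) R × Q)) (hsurj : ∀ q, ∃ g, (g, q) ∈ Γ) :
    ∃ T : Subgroup (GL (Fin n) (R ⧸ I) × Q), T ≤ Γ.map (redq n Q I) ∧ ¬ p ∣ Nat.card T ∧
      ∀ q, ∃ t ∈ T, t.2 = q := by
  classical
  have _ : Fintype (R ⧸ I) := Fintype.ofFinite _
  have hfin : Finite (GL (Fin n) (R ⧸ I) × Q) := inferInstance
  set H := Γ.map (redq n Q I) with hH
  let π : H →* Q := (MonoidHom.snd _ _).comp H.subtype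
  have hπ : Function.Surjective π := by
    intro q
    obtain ⟨g, hg⟩ := hsurj q
    exact ⟨⟨redq n Q I (g, q), Subgroup.mem_map_of_mem _ hg⟩, rfl⟩
  have hidx : π.ker.index = Nat.card Q := by
    rw [Subgroup.index_ker, MonoidHom.range_eq_top.2 hπ]
    exact Nat.card_congr (Subgroup.topEquiv).toEquiv
  obtain ⟨S, hS1, hS2⟩ := bs_fg p π.ker (by rw [hidx]; exact hpQ)
  refine ⟨S.map H.subtype, Subgroup.map_subtype_le _, ?_, ?_⟩
  · have h5 : Nat.card (S.map H.subtype) = Nat.card S :=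
      Nat.card_congr (S.equivMapOfInjective _ H.subtype_injective).toEquiv.symm
    rw [h5]
    exact hS1
  · intro q
    obtain ⟨h, hh⟩ := hπ q
    have h6 : h ∈ S ⊔ π.ker := by rw [hS2]; trivial
    obtain ⟨s, hs, t, ht, hst⟩ := Subgroup.mem_sup_of_normal_right.1 h6
    refine ⟨s.1, ⟨s, hs, rfl⟩, ?_⟩
    have h7 : π s = q := by
      rw [← hh, ← hst, map_mul, MonoidHom.mem_ker.1 ht, mul_one]
    exact h7

theorem bs_mod [IsDomain R] [IsNoetherianRing R] [Finite Q]
    (m : Ideal R) [Finite (R ⧸ m)] (p : ℕ) [Fact p.Prime] (hp : (p : R) ∈ m)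
    (hpQ : ¬ p ∣ Nat.card Q) (Γ : Subgroup (GL (Fin n) R × Q)) (hsurj : ∀ q, ∃ g, (g, q) ∈ Γ) :
    ∃ S : Subgroup (GL (Fin n) (R ⧸ m) × Q), (∀ q, ∃ s ∈ S, s.2 = q) ∧
      ∀ k : ℕ, ∃ k', k ≤ k' ∧ ∃ r : S → GL (Fin n) R, (∀ s, (r s, s.1.2) ∈ Γ) ∧
        (∀ s t : S, ∀ i j, ((r s : Matrix (Fin n) (Fin n) R) * (r t : Matrix (Fin n) (Fin n) R)) i j -
          (r (s * t) : Matrix (Fin n) (Fin n) R) i j ∈ m ^ k') ∧
        (∀ i j, (r 1 : Matrix (Fin n) (Fin n) R) i j - (1 : Matrix (Fin n) (Fin n) R) i j ∈ m ^ k') := by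
  classical
  have _ : Fintype (R ⧸ m) := Fintype.ofFinite _
  have hfq : ∀ k : ℕ, Finite (R ⧸ m ^ k) := fun k =>
    Ideal.finite_quotient_pow (IsNoetherian.noetherian m) k
  have hT := fun k : ℕ => bs_step (n := n) (m ^ (k + 1)) p hpQ Γ hsurj
  choose T hT1 hT2 hT3 using hT
  -- well-definedness
  have hone : ∀ k : ℕ, ∀ x : GL (Fin n) R × Q, redq n Q (m ^ (k + 1)) x ∈ T k →
      redq n Q m x = 1 → redq n Q (m ^ (k + 1)) x = 1 := by
    intro k x hx h1
    have h2 := redq_pow m p hp x h1 k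
    have h3 : orderOf (redq n Q (m ^ (k + 1)) x) ∣ p ^ k := orderOf_dvd_of_pow_eq_one h2
    have h4 : orderOf (redq n Q (m ^ (k + 1)) x) ∣ Nat.card (T k) :=
      Subgroup.orderOf_dvd_natCard (T k) hx
    have h5 : Nat.Coprime (p ^ k) (Nat.card (T k)) :=
      Nat.Coprime.pow_left _ ((Nat.Prime.coprime_iff_not_dvd Fact.out).2 (hT2 k))
    have h6 : orderOf (redq n Q (m ^ (k + 1)) x) = 1 := Nat.eq_one_of_dvd_coprimes h5 h3 h4
    exact orderOf_eq_one_iff.1 h6
  let f : ℕ → Subgroup (GL (Fin n) (R ⧸ m) × Q) := fun k =>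
    ((T k).comap (redq n Q (m ^ (k + 1))) ⊓ Γ).map (redq n Q m)
  have hfin : Finite (GL (Fin n) (R ⧸ m) × Q) := inferInstance
  obtain ⟨S, hS⟩ := Finite.exists_infinite_fiber f
  have hex : ∀ k : ℕ, ∃ k', k ≤ k' ∧ f k' = S := by
    intro k
    have h1 : (f ⁻¹' {S}).Infinite := Set.infinite_coe_iff.1 hS
    obtain ⟨k', hk', hlt⟩ := h1.exists_gt k
    exact ⟨k', hlt.le, hk'⟩
  refine ⟨S, ?_, ?_⟩
  · intro q
    obtain ⟨k, -, hk⟩ := hex 0
    obtain ⟨t, ht, htq⟩ := hT3 k q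
    obtain ⟨x, hx, rfl⟩ := Subgroup.mem_map.1 (hT1 k ht)
    refine ⟨redq n Q m x, ?_, htq⟩
    rw [← hk]
    exact Subgroup.mem_map_of_mem _ ⟨ht, hx⟩
  · intro k
    obtain ⟨k', hk', hfk⟩ := hex k
    refine ⟨k' + 1, hk'.trans (Nat.le_succ _), ?_⟩
    have hch : ∀ s : S, ∃ x : GL (Fin n) R × Q, (redq n Q (m ^ (k' + 1)) x ∈ T k' ∧ x ∈ Γ) ∧
        redq n Q m x = s.1 := by
      intro s
      have h1 : s.1 ∈ f k' := by rw [hfk]; exact s.2
      obtain ⟨x, hx, hxs⟩ := Subgroup.mem_map.1 h1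
      exact ⟨x, ⟨hx.1, hx.2⟩, hxs⟩
    choose x hx hxs using hch
    have hx2 : ∀ s, (x s).2 = s.1.2 := fun s => by rw [← hxs s]; rfl
    refine ⟨fun s => (x s).1, ?_, ?_, ?_⟩
    · intro s
      have : ((x s).1, s.1.2) = x s := by rw [← hx2 s]
      rw [this]
      exact (hx s).2
    · intro s t i j
      have h1 : redq n Q (m ^ (k' + 1)) (x s * x t * (x (s * t))⁻¹) = 1 := by
        apply hone
        · rw [map_mul, map_mul, map_inv]
          exact (T k').mul_mem ((T k').mul_mem (hx s).1 (hx t).1) ((T k').inv_mem (hx (s * t)).1)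
        · rw [map_mul, map_mul, map_inv, hxs, hxs, hxs]
          simp
      have h2 : redq n Q (m ^ (k' + 1)) (x s * x t) = redq n Q (m ^ (k' + 1)) (x (s * t)) := by
        rw [map_mul (redq n Q (m ^ (k' + 1))) (x s * x t), map_inv, mul_inv_eq_one] at h1
        exact h1
      exact ((redq_eq_iff _ _ _).1 h2).2 i j
    · intro i j
      have h1 : redq n Q (m ^ (k' + 1)) (x 1) = redq n Q (m ^ (k' + 1)) 1 := by
        rw [map_one]
        exact hone k' (x 1) (hx 1).1 (by rw [hxs]; rfl)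
      exact ((redq_eq_iff _ _ _).1 h1).2 i j

end

end Pool.Agent.Helper87.VM
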